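import Pool.Agent.Helper12.TS.St
import Pool.Agent.Helper63.TS.M_LNK
import Pool.Agent.Helper80.TS.M_CMP

/-!
# Module TS M3K (MP_d63854_co)
-/

set_option autoImplicit false

namespace Pool.Agent.Helper33.TS

open Pool.Agent.Helper12.TS
open Pool.Agent.Helper51.AJ (IsMinor Planar Apex ExMinor Con Tch)
open Pool.Agent.Helper12.NK (rst Kc add)

theorem hM3K : StM3K := by
  classical
  intro V _ G S Ca Cb Cc F Q Q' hM hK hS hCa hCb hCc hab hbc hac hStg hF
  obtain ⟨hF1, hF2, hQ, hQ', hcQ, hcQ', hdQ, htQ, hF3⟩ := hF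
  obtain ⟨-, hc2, -, hc4, -, -, -⟩ := Pool.Agent.Helper80.TS.hCMP V G S
  have dab : Disjoint Ca Cb := hc2 Ca Cb hCa hCb hab
  have dbc : Disjoint Cb Cc := hc2 Cb Cc hCb hCc hbc
  have dac : Disjoint Ca Cc := hc2 Ca Cc hCa hCc hac
  have daS : Disjoint Ca S := hCa.1
  have dbS : Disjoint Cb S := hCb.1
  have dcS : Disjoint Cc S := hCc.1
  obtain ⟨q, hq⟩ := Pool.Agent.Helper51.AJ.con_nonempty hcQ
  obtain ⟨q', hq'⟩ := Pool.Agent.Helper51.AJ.con_nonempty hcQ'
  obtain ⟨w, hw⟩ := Pool.Agent.Helper51.AJ.con_nonempty hCc.2.1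
  -- basic non-membership facts
  have nQF : ∀ z, z ∈ Q → ¬ ∃ s ∈ S, z ∈ F s := by
    rintro z hz ⟨s, hs, hzs⟩
    exact Set.disjoint_left.1 (hF3 s hs).1 hzs hz
  have nQ'F : ∀ z, z ∈ Q' → ¬ ∃ s ∈ S, z ∈ F s := by
    rintro z hz ⟨s, hs, hzs⟩
    exact Set.disjoint_left.1 (hF3 s hs).2.1 hzs hz
  have nCcF : ∀ z, z ∈ Cc → ¬ ∃ s ∈ S, z ∈ F s := by
    rintro z hz ⟨s, hs, hzs⟩
    rcases (hF1 s hs).2.1 hzs with h | h
    · exact Set.disjoint_left.1 dbc h hz
    · have h' : z = s := h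
      subst h'
      exact Set.disjoint_left.1 dcS hz hs
  have nCaF : ∀ z, z ∈ Ca → ¬ ∃ s ∈ S, z ∈ F s := by
    rintro z hz ⟨s, hs, hzs⟩
    rcases (hF1 s hs).2.1 hzs with h | h
    · exact Set.disjoint_left.1 dab hz h
    · have h' : z = s := h
      subst h'
      exact Set.disjoint_left.1 daS hz hs
  let D : Set V := {z | z ∈ Ca ∨ (∃ s ∈ S, z ∈ F s) ∨ z ∈ Q ∨ z ∈ Q' ∨ z ∈ Cc}
  let ρ : V → V := fun z => if h : ∃ s ∈ S, z ∈ F s then h.choose else
    if z ∈ Q then q else if z ∈ Q' then q' else if z ∈ Cc then w else z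
  have ρF : ∀ s ∈ S, ∀ z ∈ F s, ρ z = s := by
    intro s hs z hz
    have h : ∃ s ∈ S, z ∈ F s := ⟨s, hs, hz⟩
    have h1 : ρ z = h.choose := dif_pos h
    rw [h1]
    by_contra hne
    exact Set.disjoint_left.1 (hF2 _ h.choose_spec.1 s hs hne) h.choose_spec.2 hz
  have ρQ : ∀ z ∈ Q, ρ z = q := by
    intro z hz
    have h1 : ρ z = if z ∈ Q then q else if z ∈ Q' then q' else if z ∈ Cc then w else z := dif_neg (nQF z hz)
    rw [h1, if_pos hz]
  have ρQ' : ∀ z ∈ Q', ρ z = q' := by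
    intro z hz
    have h1 : ρ z = if z ∈ Q then q else if z ∈ Q' then q' else if z ∈ Cc then w else z := dif_neg (nQ'F z hz)
    rw [h1, if_neg (fun h => Set.disjoint_left.1 hdQ h hz), if_pos hz]
  have ρC : ∀ z ∈ Cc, ρ z = w := by
    intro z hz
    have h1 : ρ z = if z ∈ Q then q else if z ∈ Q' then q' else if z ∈ Cc then w else z := dif_neg (nCcF z hz)
    rw [h1, if_neg (fun h => Set.disjoint_left.1 dbc (hQ h) hz),
      if_neg (fun h => Set.disjoint_left.1 dbc (hQ' h) hz), if_pos hz]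
  have ρA : ∀ z ∈ Ca, ρ z = z := by
    intro z hz
    have h1 : ρ z = if z ∈ Q then q else if z ∈ Q' then q' else if z ∈ Cc then w else z := dif_neg (nCaF z hz)
    rw [h1, if_neg (fun h => Set.disjoint_left.1 dab hz (hQ h)),
      if_neg (fun h => Set.disjoint_left.1 dab hz (hQ' h)), if_neg (fun h => Set.disjoint_left.1 dac hz h)]
  have ρS : ∀ s ∈ S, ρ s = s := fun s hs => ρF s hs s (hF1 s hs).1
  let G₀ : SimpleGraph V :=
    { Adj := fun a b => G.Adj a b ∧ ¬ (a ∈ Q ∧ b ∈ Q') ∧ ¬ (a ∈ Q' ∧ b ∈ Q)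
      symm := ⟨fun _ _ h => ⟨h.1.symm, fun h' => h.2.2 ⟨h'.2, h'.1⟩, fun h' => h.2.1 ⟨h'.2, h'.1⟩⟩⟩
      loopless := ⟨fun _ h => G.ne_of_adj h.1 rfl⟩ }
  have hG₀ : ∀ x y, G.Adj x y → y ∉ Q → y ∉ Q' → G₀.Adj x y := fun x y h h1 h2 =>
    ⟨h, fun h' => h2 h'.2, fun h' => h1 h'.2⟩
  have hle : G₀ ≤ G := fun _ _ h => h.1
  have hfib : ∀ x ∈ D, Con G {z | z ∈ D ∧ ρ z = ρ x} := by
    intro x hx
    rcases hx with hx | ⟨s, hs, hx⟩ | hx | hx | hx
    · have : {z | z ∈ D ∧ ρ z = ρ x} = {x} := by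
        ext z
        constructor
        · rintro ⟨hz, hzx⟩
          rw [ρA x hx] at hzx
          rcases hz with hz | ⟨s, hs, hz⟩ | hz | hz | hz
          · rw [ρA z hz] at hzx; exact hzx
          · rw [ρF s hs z hz] at hzx
            exact absurd hx (fun h => Set.disjoint_left.1 daS h (hzx ▸ hs))
          · rw [ρQ z hz] at hzx
            exact absurd hx (fun h => Set.disjoint_left.1 dab h (hzx ▸ hQ hq))
          · rw [ρQ' z hz] at hzx
            exact absurd hx (fun h => Set.disjoint_left.1 dab h (hzx ▸ hQ' hq'))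
          · rw [ρC z hz] at hzx
            exact absurd hx (fun h => Set.disjoint_left.1 dac h (hzx ▸ hw))
        · intro hz
          have hz' : z = x := hz
          subst hz'
          exact ⟨Or.inl hx, rfl⟩
      rw [this]
      exact Pool.Agent.Helper51.AJ.con_singleton G x
    · have : {z | z ∈ D ∧ ρ z = ρ x} = F s := by
        ext z
        constructor
        · rintro ⟨hz, hzx⟩
          rw [ρF s hs x hx] at hzx
          rcases hz with hz | ⟨s', hs', hz⟩ | hz | hz | hz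
          · rw [ρA z hz] at hzx
            exact absurd hz (fun h => Set.disjoint_left.1 daS h (hzx ▸ hs))
          · rw [ρF s' hs' z hz] at hzx
            subst hzx
            exact hz
          · rw [ρQ z hz] at hzx
            exact absurd hs (fun h => Set.disjoint_left.1 dbS (hQ hq) (hzx ▸ h))
          · rw [ρQ' z hz] at hzx
            exact absurd hs (fun h => Set.disjoint_left.1 dbS (hQ' hq') (hzx ▸ h))
          · rw [ρC z hz] at hzx
            exact absurd hs (fun h => Set.disjoint_left.1 dcS hw (hzx ▸ h))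
        · intro hz
          exact ⟨Or.inr (Or.inl ⟨s, hs, hz⟩), by rw [ρF s hs z hz, ρF s hs x hx]⟩
      rw [this]
      exact (hF1 s hs).2.2
    · have : {z | z ∈ D ∧ ρ z = ρ x} = Q := by
        ext z
        constructor
        · rintro ⟨hz, hzx⟩
          rw [ρQ x hx] at hzx
          rcases hz with hz | ⟨s', hs', hz⟩ | hz | hz | hz
          · rw [ρA z hz] at hzx
            exact absurd hz (fun h => Set.disjoint_left.1 dab h (hzx ▸ hQ hq))
          · rw [ρF s' hs' z hz] at hzx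
            exact absurd hs' (fun h => Set.disjoint_left.1 dbS (hQ hq) (hzx ▸ h))
          · exact hz
          · rw [ρQ' z hz] at hzx
            exact absurd hq (fun h => Set.disjoint_left.1 hdQ h (hzx ▸ hq'))
          · rw [ρC z hz] at hzx
            exact absurd hw (fun h => Set.disjoint_left.1 dbc (hQ hq) (hzx ▸ h))
        · intro hz
          exact ⟨Or.inr (Or.inr (Or.inl hz)), by rw [ρQ z hz, ρQ x hx]⟩
      rw [this]
      exact hcQ
    · have : {z | z ∈ D ∧ ρ z = ρ x} = Q' := by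
        ext z
        constructor
        · rintro ⟨hz, hzx⟩
          rw [ρQ' x hx] at hzx
          rcases hz with hz | ⟨s', hs', hz⟩ | hz | hz | hz
          · rw [ρA z hz] at hzx
            exact absurd hz (fun h => Set.disjoint_left.1 dab h (hzx ▸ hQ' hq'))
          · rw [ρF s' hs' z hz] at hzx
            exact absurd hs' (fun h => Set.disjoint_left.1 dbS (hQ' hq') (hzx ▸ h))
          · rw [ρQ z hz] at hzx
            exact absurd hq (fun h => Set.disjoint_left.1 hdQ h (hzx ▸ hq'))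
          · exact hz
          · rw [ρC z hz] at hzx
            exact absurd hw (fun h => Set.disjoint_left.1 dbc (hQ' hq') (hzx ▸ h))
        · intro hz
          exact ⟨Or.inr (Or.inr (Or.inr (Or.inl hz))), by rw [ρQ' z hz, ρQ' x hx]⟩
      rw [this]
      exact hcQ'
    · have : {z | z ∈ D ∧ ρ z = ρ x} = Cc := by
        ext z
        constructor
        · rintro ⟨hz, hzx⟩
          rw [ρC x hx] at hzx
          rcases hz with hz | ⟨s', hs', hz⟩ | hz | hz | hz
          · rw [ρA z hz] at hzx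
            exact absurd hz (fun h => Set.disjoint_left.1 dac h (hzx ▸ hw))
          · rw [ρF s' hs' z hz] at hzx
            exact absurd hs' (fun h => Set.disjoint_left.1 dcS hw (hzx ▸ h))
          · rw [ρQ z hz] at hzx
            exact absurd hw (fun h => Set.disjoint_left.1 dbc (hQ hq) (hzx ▸ h))
          · rw [ρQ' z hz] at hzx
            exact absurd hw (fun h => Set.disjoint_left.1 dbc (hQ' hq') (hzx ▸ h))
          · exact hz
        · intro hz
          exact ⟨Or.inr (Or.inr (Or.inr (Or.inr hz))), by rw [ρC z hz, ρC x hx]⟩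
      rw [this]
      exact hCc.2.1
  have hlost : ∃ x y, G.Adj x y ∧ ¬ (G₀.Adj x y ∧ x ∈ D ∧ y ∈ D ∧ ρ x ≠ ρ y) := by
    obtain ⟨x, hx, y, hy, hxy⟩ := htQ
    exact ⟨x, y, hxy, fun h => h.1.2.1 ⟨hx, hy⟩⟩
  obtain ⟨v, hv⟩ := hM.2 G₀ D ρ hle hfib hlost
  have SD : ∀ s ∈ S, s ∈ D := fun s hs => Or.inr (Or.inl ⟨s, hs, (hF1 s hs).1⟩)
  have Sn : ∀ s ∈ S, s ∉ Q ∧ s ∉ Q' := fun s hs =>
    ⟨fun h => Set.disjoint_left.1 dbS (hQ h) hs, fun h => Set.disjoint_left.1 dbS (hQ' h) hs⟩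
  have An : ∀ s ∈ Ca, s ∉ Q ∧ s ∉ Q' := fun s hs =>
    ⟨fun h => Set.disjoint_left.1 dab hs (hQ h), fun h => Set.disjoint_left.1 dab hs (hQ' h)⟩
  have qS : ∀ s ∈ S, (quo G₀ D ρ).Adj q s := by
    intro s hs
    obtain ⟨x, hx, y, hy, hxy⟩ := (hF3 s hs).2.2.1
    refine ⟨fun h => Set.disjoint_left.1 dbS (hQ hq) (h ▸ hs), x, Or.inr (Or.inr (Or.inl hx)), y,
      Or.inr (Or.inl ⟨s, hs, hy⟩), ρQ x hx, ρF s hs y hy, hG₀ x y hxy ?_ ?_⟩
    · exact fun h => nQF y h ⟨s, hs, hy⟩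
    · exact fun h => nQ'F y h ⟨s, hs, hy⟩
  have q'S : ∀ s ∈ S, (quo G₀ D ρ).Adj q' s := by
    intro s hs
    obtain ⟨x, hx, y, hy, hxy⟩ := (hF3 s hs).2.2.2
    refine ⟨fun h => Set.disjoint_left.1 dbS (hQ' hq') (h ▸ hs), x, Or.inr (Or.inr (Or.inr (Or.inl hx))), y,
      Or.inr (Or.inl ⟨s, hs, hy⟩), ρQ' x hx, ρF s hs y hy, hG₀ x y hxy ?_ ?_⟩
    · exact fun h => nQF y h ⟨s, hs, hy⟩
    · exact fun h => nQ'F y h ⟨s, hs, hy⟩
  have wS : ∀ s ∈ S, (quo G₀ D ρ).Adj w s := by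
    intro s hs
    obtain ⟨x, hx, y, hy, hxy⟩ := hc4 hK hS Cc hCc s hs
    have hx' : x = s := hx
    subst hx'
    refine ⟨fun h => Set.disjoint_left.1 dcS hw (h ▸ hs), y, Or.inr (Or.inr (Or.inr (Or.inr hy))), x,
      SD x hs, ρC y hy, ρS x hs, hG₀ y x hxy.symm (Sn x hs).1 (Sn x hs).2⟩
  have hsub : rst G (Ca ∪ S) ≤ quo G₀ D ρ := by
    rintro x y ⟨hxy, hx, hy⟩
    have hρ : ∀ z, z ∈ Ca ∪ S → ρ z = z ∧ z ∈ D ∧ z ∉ Q ∧ z ∉ Q' := by
      rintro z (hz | hz)
      · exact ⟨ρA z hz, Or.inl hz, An z hz⟩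
      · exact ⟨ρS z hz, SD z hz, Sn z hz⟩
    exact ⟨G.ne_of_adj hxy, x, (hρ x hx).2.1, y, (hρ y hy).2.1, (hρ x hx).1, (hρ y hy).1,
      hG₀ x y hxy (hρ y hy).2.2.1 (hρ y hy).2.2.2⟩
  have hqq' : q ≠ q' := fun h => Set.disjoint_left.1 hdQ hq (h ▸ hq')
  obtain ⟨s₀, s₁, s₂, h01, h02, h12, hSeq⟩ := Set.ncard_eq_three.1 hS
  have m0 : s₀ ∈ S := by rw [hSeq]; simp
  have m1 : s₁ ∈ S := by rw [hSeq]; simp
  have m2 : s₂ ∈ S := by rw [hSeq]; simp
  by_cases hvA : v ∈ Ca
  · have hSv : ∀ s ∈ S, s ≠ v := fun s hs h => Set.disjoint_left.1 daS hvA (h ▸ hs)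
    have hqv : q ≠ v := fun h => Set.disjoint_left.1 dab hvA (h ▸ hQ hq)
    have hq'v : q' ≠ v := fun h => Set.disjoint_left.1 dab hvA (h ▸ hQ' hq')
    have hwv : w ≠ v := fun h => Set.disjoint_left.1 dac hvA (h ▸ hw)
    have hqw : q ≠ w := fun h => Set.disjoint_left.1 dbc (hQ hq) (h ▸ hw)
    have hq'w : q' ≠ w := fun h => Set.disjoint_left.1 dbc (hQ' hq') (h ▸ hw)
    have hSq : ∀ s ∈ S, q ≠ s ∧ q' ≠ s ∧ w ≠ s := fun s hs =>
      ⟨fun h => Set.disjoint_left.1 dbS (hQ hq) (h ▸ hs), fun h => Set.disjoint_left.1 dbS (hQ' hq') (h ▸ hs),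
        fun h => Set.disjoint_left.1 dcS hw (h ▸ hs)⟩
    apply hv.2
    let g : Fin 3 → V := ![q, q', w]
    let t : Fin 3 → V := ![s₀, s₁, s₂]
    have hg : ∀ i, g i = q ∨ g i = q' ∨ g i = w := by
      intro i; fin_cases i
      · exact Or.inl rfl
      · exact Or.inr (Or.inl rfl)
      · exact Or.inr (Or.inr rfl)
    have ht : ∀ i, t i ∈ S := by
      intro i; fin_cases i
      · exact m0
      · exact m1
      · exact m2
    have hadj : ∀ i j, (rst (quo G₀ D ρ) {v}ᶜ).Adj (g i) (t j) := by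
      intro i j
      refine ⟨?_, ?_, hSv _ (ht j)⟩
      · rcases hg i with h | h | h <;> rw [h]
        · exact qS _ (ht j)
        · exact q'S _ (ht j)
        · exact wS _ (ht j)
      · show g i ≠ v
        rcases hg i with h | h | h <;> rw [h]
        · exact hqv
        · exact hq'v
        · exact hwv
    refine Pool.Agent.Helper51.AJ.isMinor_of_hom (Sum.elim g t) ?_ ?_
    · have hginj : Function.Injective g := by
        intro i j hij
        fin_cases i <;> fin_cases j <;> first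
          | rfl
          | exact absurd hij hqq'
          | exact absurd hij hqw
          | exact absurd hij hq'w
          | exact absurd hij.symm hqq'
          | exact absurd hij.symm hqw
          | exact absurd hij.symm hq'w
      have htinj : Function.Injective t := by
        intro i j hij
        fin_cases i <;> fin_cases j <;> first
          | rfl
          | exact absurd hij h01
          | exact absurd hij h02
          | exact absurd hij h12
          | exact absurd hij.symm h01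
          | exact absurd hij.symm h02
          | exact absurd hij.symm h12
      exact hginj.sumElim htinj (fun i j => (hadj i j).ne)
    · rintro (i | i) (j | j) h
      · simp at h
      · exact hadj i j
      · exact (hadj j i).symm
      · simp at h
  · -- choose `i ∈ S` with `v ∉ S \ {i}`
    obtain ⟨i, hi, hvi⟩ : ∃ i ∈ S, v ∉ S \ {i} := by
      by_cases hvS : v ∈ S
      · exact ⟨v, hvS, fun h => h.2 rfl⟩
      · exact ⟨s₀, m0, fun h => hvS h.1⟩
    obtain ⟨p, hpb, hpv, hpS⟩ : ∃ p ∈ Cb, p ≠ v ∧ ∀ s ∈ S, (quo G₀ D ρ).Adj p s := by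
      by_cases h : q = v
      · exact ⟨q', hQ' hq', fun h' => hqq' (h.trans h'.symm), q'S⟩
      · exact ⟨q, hQ hq, h, qS⟩
    obtain ⟨a, b, hab', hSi⟩ : ∃ a b, a ≠ b ∧ S \ {i} = {a, b} := by
      have : (S \ {i}).ncard = 2 := by
        rw [Set.ncard_sdiff_singleton_of_mem hi, hS]
      exact Set.ncard_eq_two.1 this
    have haS : a ∈ S \ {i} := by rw [hSi]; simp
    have hbS : b ∈ S \ {i} := by rw [hSi]; simp
    have hav : a ≠ v := fun h => hvi (h ▸ haS)
    have hbv : b ≠ v := fun h => hvi (h ▸ hbS)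
    apply hStg i hi
    rw [hSi]
    refine Pool.Agent.Helper63.TS.hLNK V G (rst (quo G₀ D ρ) {v}ᶜ) Ca {p} a b ?_ ?_ ?_ hv
    · rintro x y ⟨hxy, hx, hy⟩
      have hin : ∀ z, z ∈ Ca ∪ {a, b} → z ∈ Ca ∪ S ∧ z ≠ v := by
        rintro z (hz | hz | hz)
        · exact ⟨Or.inl hz, fun h => hvA (h ▸ hz)⟩
        · have hz' : z = a := hz
          subst hz'
          exact ⟨Or.inr haS.1, hav⟩
        · have hz' : z = b := hz
          subst hz'
          exact ⟨Or.inr hbS.1, hbv⟩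
      exact ⟨hsub ⟨hxy, (hin x hx).1, (hin y hy).1⟩, (hin x hx).2, (hin y hy).2⟩
    · rw [Set.disjoint_singleton_left]
      rintro (h | h | h)
      · exact Set.disjoint_left.1 dab h hpb
      · have h' : p = a := h
        exact Set.disjoint_left.1 dbS hpb (h' ▸ haS.1)
      · have h' : p = b := h
        exact Set.disjoint_left.1 dbS hpb (h' ▸ hbS.1)
    · refine Or.inr ⟨{p}, subset_rfl, Pool.Agent.Helper51.AJ.con_singleton _ p, ?_, ?_⟩
      · exact ⟨a, rfl, p, rfl, (hpS a haS.1).symm, hav, hpv⟩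
      · exact ⟨b, rfl, p, rfl, (hpS b hbS.1).symm, hbv, hpv⟩

end Pool.Agent.Helper33.TS
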